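import Pool.Agent.TH261.BV.Strict

set_option autoImplicit false

/-!
Equality in Borcea's `p`-variance inequality, `p > 1`, for all polynomials whose zeros lie on one
line (in particular for all real-rooted polynomials): `h(F, F') ≥ σ_p(F)` if and only if
`F = (X - c)^n - b`.

Idea.  By the mean distance inequality `h(F, F') ≤ σ_1(F)` for collinear zeros and by strict
convexity, `h(F, F') < σ_p(F)` unless all zeros have the same distance to the optimal centre; then
there are at most two different zeros, and the critical points are known.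
-/

namespace Pool.Agent.Results.MP_c113aa_an.CollinearEquality

open Polynomial Finset

/-- **Equality cases for collinear zeros.** -/
theorem result (n : ℕ) (hn : 2 ≤ n) (z : Fin n → ℂ) (hz : Collinear ℝ (Set.range z))
    (p : ℝ) (hp : 1 < p) :
    (∃ (c : ℂ) (k : Fin n), ∀ w : ℂ,
      (derivative (∏ j : Fin n, (X - C (z j)))).IsRoot w →
        ((1 / (n : ℝ)) * ∑ j : Fin n, ‖z j - c‖ ^ p) ^ (1 / p) ≤ ‖z k - w‖) ↔
    ∃ b c : ℂ, ∏ j : Fin n, (X - C (z j)) = (X - C c) ^ n - C b := by
  have hn0 : (0 : ℝ) < n := by exact_mod_cast (by omega : 0 < n)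
  have hp0 : 0 < p := by linarith
  obtain ⟨α, β, x, hx⟩ := Pool.Agent.TH261.BV.exists_param hz
  constructor
  · rintro ⟨c, k, h⟩
    by_cases hne : ∃ i j, z i ≠ z j
    · rcases Nat.lt_or_ge 2 n with h3 | h3
      · exfalso
        obtain ⟨w, hw, hlt⟩ := Pool.Agent.TH261.BV.exists_crit_lt h3 α β x z hx hp hne c k
        exact absurd (h _ (Pool.Agent.TH261.BV.isRoot_of_D α β x z hx hw)) (not_le.2 hlt)
      · obtain rfl : n = 2 := le_antisymm h3 hn
        refine ⟨((z 0 - z 1) / 2) ^ 2, (z 0 + z 1) / 2, ?_⟩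
        rw [Fin.prod_univ_two]
        have e1 : C ((z 0 + z 1) / 2) = C (1 / 2) * (C (z 0) + C (z 1)) := by
          rw [← C_add, ← C_mul]; congr 1; ring
        have e2 : C (((z 0 - z 1) / 2) ^ 2) = (C (1 / 2) * (C (z 0) - C (z 1))) ^ 2 := by
          rw [← C_sub, ← C_mul, ← C_pow]; congr 1; ring
        have e3 : (C (1 / 2 : ℂ)) * 2 = 1 := by
          rw [show (2 : Polynomial ℂ) = C 2 by rfl, ← C_mul]; norm_num
        rw [e1, e2]
        linear_combination (X * (C (z 0) + C (z 1)) -
          C (z 0) * C (z 1) * (2 * C (1 / 2 : ℂ) + 1)) * e3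
    · push Not at hne
      have i₀ : Fin n := ⟨0, by omega⟩
      refine ⟨0, z i₀, ?_⟩
      rw [prod_congr rfl fun j _ => by rw [hne j i₀], prod_const, card_univ, Fintype.card_fin]
      simp
  · rintro ⟨b, c, h⟩
    have i₀ : Fin n := ⟨0, by omega⟩
    -- all zeros have the same distance to `c`
    have h1 : ∀ j, (z j - c) ^ n = b := by
      intro j
      have h2 : eval (z j) (∏ j : Fin n, (X - C (z j))) = 0 := by
        rw [eval_prod]
        exact prod_eq_zero (mem_univ j) (by simp)
      rw [h] at h2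
      simp only [eval_sub, eval_pow, eval_X, eval_C] at h2
      exact sub_eq_zero.1 h2
    have h3 : ∀ j, ‖z j - c‖ = ‖z i₀ - c‖ := by
      intro j
      have h4 : ‖z j - c‖ ^ n = ‖z i₀ - c‖ ^ n := by
        rw [← norm_pow, ← norm_pow, h1, h1]
      exact (pow_left_inj₀ (norm_nonneg _) (norm_nonneg _) (by omega)).1 h4
    refine ⟨c, i₀, fun w hw => ?_⟩
    rw [h] at hw
    have h5 : w = c := by
      rw [IsRoot.def] at hw
      simp only [derivative_sub, derivative_C, sub_zero, derivative_X_sub_C_pow, eval_mul,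
        eval_pow, eval_sub, eval_X, eval_C] at hw
      rcases mul_eq_zero.1 hw with h6 | h6
      · exact absurd h6 (by exact_mod_cast (by omega : n ≠ 0))
      · exact sub_eq_zero.1 (pow_eq_zero_iff (by omega) |>.1 h6)
    rw [h5]
    rw [sum_congr rfl fun j _ => by rw [h3 j], sum_const, card_univ, Fintype.card_fin,
      nsmul_eq_mul, ← mul_assoc, one_div_mul_cancel hn0.ne', one_mul,
      ← Real.rpow_mul (norm_nonneg _), mul_one_div_cancel hp0.ne', Real.rpow_one]

end Pool.Agent.Results.MP_c113aa_an.CollinearEquality
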